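import Mathlib
import Pool.Agent.H.MP_4f7194_al.A

namespace Pool.Agent.Results.MP_4f7194_al.No

/-- An element of a group is primitive if it belongs to some free basis. -/
def IsPrimitiveElt {G : Type} [Group G] (p : G) : Prop :=
  ∃ (ι : Type) (b : FreeGroupBasis ι G) (k : ι), b k = p

theorem result (n : ℕ) (hn : 3 ≤ n) :
    ∃ r : Fin n → FreeGroup (Fin n),
      Subsingleton (PresentedGroup (Set.range r)) ∧
      ∀ (i : Fin n) (p : FreeGroup (Fin n)), IsPrimitiveElt p →
        Nontrivial (PresentedGroup (Set.range (Function.update r i p))) := by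
  obtain ⟨r, h1, h2⟩ := Pool.Agent.H.MP_4f7194_al.main n hn
  refine ⟨r, ?_, ?_⟩
  · exact QuotientGroup.subsingleton_iff.2 h1
  · rintro i p ⟨ι, b, k, rfl⟩
    exact QuotientGroup.nontrivial_iff.2 (h2 i ι b k)

end Pool.Agent.Results.MP_4f7194_al.No
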